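import Pool.Agent.X37.FE.Stm

/-! The bounded inverse of a self-adjoint coercive operator. -/

set_option autoImplicit false

namespace Pool.Agent.X330.FE

open Set Filter Topology RealInnerProductSpace Pool.Agent.X83.DA Pool.Agent.X37.FE

section
variable (H : Type*) [NormedAddCommGroup H] [InnerProductSpace ℝ H] [CompleteSpace H]

variable {H} in
theorem low (D : Submodule ℝ H) (A : D →ₗ[ℝ] H) (b : ℝ) (h : SA D A b) (v : D) :
    b * ‖(v : H)‖ ≤ ‖A v‖ := by
  rcases eq_or_lt_of_le (norm_nonneg (v : H)) with h0 | h0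
  · rw [← h0, mul_zero]
    exact norm_nonneg _
  · have h1 := h.coer v
    have h2 : ⟪A v, (v : H)⟫ ≤ ‖A v‖ * ‖(v : H)‖ := real_inner_le_norm _ _
    nlinarith

variable {H} in
theorem inj (D : Submodule ℝ H) (A : D →ₗ[ℝ] H) (b : ℝ) (h : SA D A b) :
    Function.Injective A := by
  rw [← LinearMap.ker_eq_bot, LinearMap.ker_eq_bot']
  intro v hv
  have h1 := low D A b h v
  rw [hv, norm_zero] at h1
  have h2 : ‖(v : H)‖ ≤ 0 := by
    have := h.bpos
    by_contra hc
    push_neg at hc
    nlinarith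
  have h3 : (v : H) = 0 := norm_le_zero_iff.1 h2
  exact Subtype.ext h3

variable {H} in
theorem closed_range (D : Submodule ℝ H) (A : D →ₗ[ℝ] H) (b : ℝ) (h : SA D A b) :
    IsClosed ((LinearMap.range A : Submodule ℝ H) : Set H) := by
  apply IsSeqClosed.isClosed
  intro y y0 hy hlim
  choose v hv using hy
  have hb := h.bpos
  have hc : CauchySeq (fun n => (v n : H)) := by
    have hcy := hlim.cauchySeq
    rw [Metric.cauchySeq_iff] at hcy ⊢
    intro ε hε
    obtain ⟨N, hN⟩ := hcy (b * ε) (by positivity)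
    refine ⟨N, fun m hm n hn => ?_⟩
    have h1 := hN m hm n hn
    rw [dist_eq_norm, ← hv m, ← hv n, ← map_sub] at h1
    have h2 := low D A b h (v m - v n)
    rw [dist_eq_norm]
    have h3 : ((v m - v n : D) : H) = (v m : H) - v n := rfl
    rw [h3] at h2
    have : b * ‖(v m : H) - v n‖ < b * ε := lt_of_le_of_lt h2 h1
    exact lt_of_mul_lt_mul_left this hb.le
  obtain ⟨x, hx⟩ := cauchySeq_tendsto_of_complete hc
  have key : ∀ w : D, ⟪A w, x⟫ = ⟪(w : H), y0⟫ := by
    intro w
    have t1 : Tendsto (fun n => ⟪A w, (v n : H)⟫) atTop (𝓝 ⟪A w, x⟫) :=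
      (tendsto_const_nhds (x := A w)).inner hx
    have t2 : Tendsto (fun n => ⟪(w : H), y n⟫) atTop (𝓝 ⟪(w : H), y0⟫) :=
      (tendsto_const_nhds (x := (w : H))).inner hlim
    have e : (fun n => ⟪A w, (v n : H)⟫) = fun n => ⟪(w : H), y n⟫ := by
      funext n
      rw [h.sym w (v n), hv n]
    rw [e] at t1
    exact tendsto_nhds_unique t1 t2
  obtain ⟨hm, he⟩ := h.max x y0 key
  exact ⟨⟨x, hm⟩, he⟩

variable {H} in
theorem surj (D : Submodule ℝ H) (A : D →ₗ[ℝ] H) (b : ℝ) (h : SA D A b) :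
    Function.Surjective A := by
  rw [← LinearMap.range_eq_top]
  have hcl := closed_range D A b h
  haveI : CompleteSpace (LinearMap.range A) := hcl.completeSpace_coe
  rw [← Submodule.orthogonal_eq_bot_iff]
  rw [Submodule.eq_bot_iff]
  intro x hx
  rw [Submodule.mem_orthogonal] at hx
  obtain ⟨hm, he⟩ := h.max x 0 (fun y => by rw [hx _ ⟨y, rfl⟩, inner_zero_right])
  have hc := h.coer ⟨x, hm⟩
  rw [he, inner_zero_left] at hc
  have hb := h.bpos
  have h2 : ‖x‖ ^ 2 ≤ 0 := by
    by_contra hcc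
    push_neg at hcc
    have : 0 < b * ‖x‖ ^ 2 := by positivity
    exact absurd hc (not_le.2 this)
  have h3 : ‖x‖ = 0 := by nlinarith [norm_nonneg x]
  exact norm_eq_zero.1 h3

theorem t : S_INV H := by
  intro D A b h
  have hb := h.bpos
  let e : D ≃ₗ[ℝ] H := LinearEquiv.ofBijective A ⟨inj D A b h, surj D A b h⟩
  have hA : ∀ x, A (e.symm x) = x := fun x => e.apply_symm_apply x
  have hA' : ∀ v, e.symm (A v) = v := fun v => e.symm_apply_apply v
  let B : H →L[ℝ] H := LinearMap.mkContinuous (D.subtype.comp (e.symm : H →ₗ[ℝ] D)) b⁻¹ (by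
    intro x
    have := low D A b h (e.symm x)
    rw [hA] at this
    rw [inv_mul_eq_div, le_div_iff₀ hb]
    calc ‖(D.subtype.comp (e.symm : H →ₗ[ℝ] D)) x‖ * b = b * ‖((e.symm x : D) : H)‖ := by
          rw [mul_comm]; rfl
      _ ≤ ‖x‖ := this)
  have hB : ∀ x, B x = ((e.symm x : D) : H) := fun x => rfl
  have sym : ∀ x y : H, ⟪B x, y⟫ = ⟪x, B y⟫ := by
    intro x y
    have := h.sym (e.symm x) (e.symm y)
    rw [hA, hA] at this
    rw [hB, hB]
    exact this.symm
  have binj : ∀ x, B x = 0 → x = 0 := by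
    intro x hx
    rw [hB] at hx
    have : e.symm x = 0 := Subtype.ext hx
    rw [← hA x, this, map_zero]
  refine ⟨B, ⟨?_, ?_, sym, ?_, ?_⟩⟩
  · intro x
    exact ⟨(e.symm x).2, hA x⟩
  · intro v
    rw [hB, hA']
  · intro x
    have := h.coer (e.symm x)
    rw [hA] at this
    rw [hB, real_inner_comm]
    have h2 : 0 ≤ b * ‖((e.symm x : D) : H)‖ ^ 2 := by positivity
    linarith
  · have hr : (Set.range fun x => B (B x)) = ((LinearMap.range (B.comp B).toLinearMap : Submodule ℝ H) : Set H) := by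
      ext y
      simp
    rw [hr, Submodule.dense_iff_topologicalClosure_eq_top,
      Submodule.topologicalClosure_eq_top_iff, Submodule.eq_bot_iff]
    intro y hy
    rw [Submodule.mem_orthogonal] at hy
    have h1 : ∀ x, ⟪B (B x), y⟫ = 0 := fun x => hy _ ⟨x, rfl⟩
    have h2 : ⟪B (B y), B (B y)⟫ = 0 := by
      have := h1 (B (B y))
      rw [sym, sym] at this
      exact this
    exact binj _ (binj _ (inner_self_eq_zero.1 h2))

end

end Pool.Agent.X330.FE
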